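import Pool.Agent.H26.EcDefs
import Pool.Agent.H26.EcMain

set_option autoImplicit false

namespace Pool.Agent.Results.MP_4b0123_al.Criteria

open Pool.Agent.H26.Ec

theorem result :
    -- cancellative semigroups are solutions
    (∀ (S : Type) [CommSemigroup S], Cancel S → EndCancel S) ∧
    -- an idempotent of a solution is its identity element (so there is at most one)
    (∀ (S : Type) [CommSemigroup S], EndCancel S → ∀ e : S, e * e = e → ∀ x, e * x = x) ∧
    -- every element has an idempotent multiple (e.g. `S` finite or periodic): exactly the groups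
    (∀ (S : Type) [CommSemigroup S], (∀ x : S, ∃ y : S, (x * y) * (x * y) = x * y) →
      (EndCancel S ↔ ∀ a b : S, ∃ x : S, a * x = b)) ∧
    -- a homomorphism to the positive integers taking the value 1: exactly the cancellative ones
    (∀ (S : Type) [CommSemigroup S] (l : S → ℕ), (∀ x y, l (x * y) = l x + l y) →
      (∀ x, 0 < l x) → (∃ x, l x = 1) → (EndCancel S ↔ Cancel S)) ∧
    -- monoids with a homomorphism to the nonnegative integers taking the value 1
    (∀ (M : Type) [CommMonoid M] (l : M → ℕ), (∀ x y, l (x * y) = l x + l y) →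
      (∃ x, l x = 1) → (EndCancel M ↔ Cancel M)) ∧
    -- a solution that is not cancellative: `⟨a, s | a s = a⟩`
    (EndCancel Ex ∧ ¬ Cancel Ex) := by
  refine ⟨fun S _ => cancel_end, fun S _ => idem_one, fun S _ => periodic_iff, ?_, ?_,
    ex_endCancel, ex_not_cancel⟩
  · rintro S _ l hl hpos ⟨x₀, hx₀⟩
    exact graded_iff l hl hpos x₀ hx₀
  · rintro M _ l hl ⟨x₀, hx₀⟩
    exact monoid_iff l hl x₀ hx₀

end Pool.Agent.Results.MP_4b0123_al.Criteria
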